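import Pool.Agent.H915.TC.Fin
import Pool.Agent.H915.TC.Lg8

/-!
MP_64ff02_ag, Q1: complements of two curves in the projective plane.

Let `C_0 = {H 0 = 0}` and `C_1 = {H 1 = 0}` be smooth curves of degrees `d 0` and `d 1` in the
projective plane which intersect transversally (`Transversal`), `4 ≤ d 0 + d 1`, and
`X = P^2 - C_0 - C_1`, a smooth affine surface.

(1) `X` is of log general type (property (i)). For a form `G`, all closed subvarieties of `X` of
positive dimension that are not contained in `G = 0` are of log general type (property (iv)) if and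
only if the images of all nonconstant morphisms from the multiplicative group to `X` are contained
in `G = 0`.

(2) Let `f` be an entire curve in `X` the derivative of which is bounded in the Fubini-Study metric
(a Brody curve). Then `f` is contained in a member of the pencil spanned by `(H 0) ^ (d 1)` and
`(H 1) ^ (d 0)`, or the homogeneous coordinates of `f` are polynomials in `exp (b z)`. If `G` is as
in (1), then all nonconstant Brody curves in `X` are contained in `G = 0`.

(3) The properties (iv), (iii), (ii) with the empty exceptional set are equivalent for `X`: all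
closed subvarieties of `X` of positive dimension are of log general type if and only if all entire
curves in `X` are constant, if and only if all holomorphic maps from the punctured disc to `X`
extend. They are equivalent to a bound for the derivatives of the maps from discs to `X` (`X` is
hyperbolic and hyperbolically embedded), and to: all morphisms from the multiplicative group to `X`
are constant.

(4) If `H 0`, `H 1` are very general forms of degrees `d 0, d 1 > 0` with `5 ≤ d 0 + d 1`, then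
`C_0`, `C_1` are smooth and transversal, and `X` has all properties of (3): so all four properties
(i)-(iv) hold, with the empty exceptional set.
-/

set_option autoImplicit false

namespace Pool.Agent.Results.MP_64ff02_ag.TwoPlaneCurves

open MvPolynomial Metric
open Pool.Agent.Results.MP_64ff02_ag.GenericPairsSpecialSet (VeryGeneral OnPair Subvariety LogGT
  LogGTOutside BrodyOutside PicardOutside)

/-- The plane curves `H 0 = 0` and `H 1 = 0`, of degrees `d 0` and `d 1`, are smooth and intersect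
transversally. -/
structure Transversal (H : Fin 2 → MvPolynomial (Fin (2 + 1)) ℂ) (d : Fin 2 → ℕ) : Prop where
  pos : ∀ a, 0 < d a
  form : ∀ a, (H a).IsHomogeneous (d a)
  smooth : ∀ a (x : Fin (2 + 1) → ℂ), x ≠ 0 → eval x (H a) = 0 → ∃ i, eval x (pderiv i (H a)) ≠ 0
  transversal : ∀ x : Fin (2 + 1) → ℂ, x ≠ 0 → eval x (H 0) = 0 → eval x (H 1) = 0 →
    ∃ i j, eval x (pderiv i (H 0)) * eval x (pderiv j (H 1)) ≠
      eval x (pderiv j (H 0)) * eval x (pderiv i (H 1))

/-- The curve with the homogeneous coordinates `f` is contained in the complement of the two curves,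
and its derivative in the Fubini-Study metric is bounded. -/
def BrodyCurve (H : Fin 2 → MvPolynomial (Fin (2 + 1)) ℂ) (f : ℂ → Fin (2 + 1) → ℂ) : Prop :=
  Differentiable ℂ f ∧ (∀ z, OnPair H ∅ (f z)) ∧
    ∃ M : ℝ, ∀ z i j, ‖f z i * deriv f z j - f z j * deriv f z i‖ ≤ M * ‖f z‖ ^ 2

/-- The polynomials `q` are the homogeneous coordinates of a nonconstant morphism from the
multiplicative group to the complement of the two curves. -/
def GmCurve (H : Fin 2 → MvPolynomial (Fin (2 + 1)) ℂ) (q : Fin (2 + 1) → Polynomial ℂ) : Prop :=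
  (∀ t, t ≠ 0 → OnPair H ∅ fun i => (q i).eval t) ∧
    ∃ s t i j, s ≠ 0 ∧ t ≠ 0 ∧ (q i).eval s * (q j).eval t ≠ (q j).eval s * (q i).eval t

/-- The derivatives at the origin of the holomorphic maps from the disc of radius `R` to the
complement of the two curves are bounded by a constant multiple of `1 / R`, in the Fubini-Study
metric. -/
def DerivativeEstimate (H : Fin 2 → MvPolynomial (Fin (2 + 1)) ℂ) : Prop :=
  ∃ C : ℝ, ∀ (R : ℝ) (f : ℂ → Fin (2 + 1) → ℂ), 0 < R → DifferentiableOn ℂ f (ball 0 R) →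
    (∀ z ∈ ball (0 : ℂ) R, OnPair H ∅ (f z)) →
      ∀ i j, ‖f 0 i * deriv f 0 j - f 0 j * deriv f 0 i‖ * R ≤ C * ‖f 0‖ ^ 2

open Pool.Agent.H915 Pool.Agent.Y190.OP Pool.Agent.N155

theorem Transversal.snc {H : Fin 2 → MvPolynomial (Fin (2 + 1)) ℂ} {d : Fin 2 → ℕ}
    (h : Transversal H d) : ∃ e1 e2, d 0 = e1 + 1 ∧ d 1 = e2 + 1 ∧ SNC (H 0) (H 1) e1 e2 := by
  have p0 := h.pos 0
  have p1 := h.pos 1
  have f0 := h.form 0
  have f1 := h.form 1
  obtain ⟨e1, he1⟩ := Nat.exists_eq_add_of_lt p0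
  obtain ⟨e2, he2⟩ := Nat.exists_eq_add_of_lt p1
  rw [zero_add] at he1 he2
  rw [he1] at f0
  rw [he2] at f1
  refine ⟨e1, e2, he1, he2, f0, f1, fun x hx h0 => ?_, fun x hx h0 => ?_, fun x hx h0 h1 => ?_⟩
  · obtain ⟨i, hi⟩ := h.smooth 0 x hx h0
    exact fun hcon => hi (congrFun hcon i)
  · obtain ⟨i, hi⟩ := h.smooth 1 x hx h0
    exact fun hcon => hi (congrFun hcon i)
  · obtain ⟨i, j, hij⟩ := h.transversal x hx h0 h1
    intro hcon
    apply hij
    have c0 : grad (H 0) x 1 * grad (H 1) x 2 - grad (H 0) x 2 * grad (H 1) x 1 = 0 :=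
      congrFun hcon 0
    have c1 : grad (H 0) x 2 * grad (H 1) x 0 - grad (H 0) x 0 * grad (H 1) x 2 = 0 :=
      congrFun hcon 1
    have c2 : grad (H 0) x 0 * grad (H 1) x 1 - grad (H 0) x 1 * grad (H 1) x 0 = 0 :=
      congrFun hcon 2
    change grad (H 0) x i * grad (H 1) x j = grad (H 0) x j * grad (H 1) x i
    fin_cases i <;> fin_cases j <;> simp only [Fin.zero_eta, Fin.mk_one, Fin.reduceFinMk]
    · linear_combination c2
    · linear_combination -c1
    · linear_combination -c2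
    · linear_combination c0
    · linear_combination c1
    · linear_combination -c0

theorem BrodyCurve.lift {H : Fin 2 → MvPolynomial (Fin (2 + 1)) ℂ} {e1 e2 : ℕ}
    (h : SNC (H 0) (H 1) e1 e2) {f : ℂ → Fin (2 + 1) → ℂ} (hf : BrodyCurve H f) :
    ∃ (K : ℝ) (F : ℂ → V) (g : ℂ → ℂ), EC (H 0) (H 1) F K g ∧
      (∀ z, ‖fderiv ℝ (fun y => Phi (F y)) z‖ ≤ K) ∧ ∀ z, ∃ c : ℂ, c ≠ 0 ∧ f z = c • F z := by
  obtain ⟨hd, hX, M, hM⟩ := hf
  have h0 : ∀ z, f z ≠ 0 := fun z => (hX z).1
  have hb : ∀ z, ‖fderiv ℝ (fun y => Phi (f y)) z‖ ≤ 6 * |M| + 1 := by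
    intro z
    refine (fderiv_Phi_le (M := |M|) isOpen_univ hd.differentiableOn (fun z _ => h0 z)
      (Set.mem_univ z) (abs_nonneg M) (fun i j => (hM z i j).trans ?_)).trans (by linarith)
    exact mul_le_mul_of_nonneg_right (le_abs_self M) (by positivity)
  obtain ⟨F, g, hF, hFf⟩ := h.curve (H := fun z => Phi (f z)) (K := 6 * |M| + 1) (by positivity)
    (holP_Phi hd h0) hb
    (fun z hz => (onPair_iff.1 (hX z)).2.1 ((pe_eq_zero h.h1 (h0 z)).1 hz))
    (fun z hz => (onPair_iff.1 (hX z)).2.2 ((pe_eq_zero h.h2 (h0 z)).1 hz))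
  refine ⟨_, F, g, hF, fun z => ?_, fun z => ?_⟩
  · have : (fun y => Phi (F y)) = fun y => Phi (f y) := funext hFf
    rw [this]
    exact hb z
  · have h1 := (Phi_eq_iff (hF.ne z) (h0 z)).1 (hFf z)
    obtain ⟨c, hc⟩ := exists_smul_of_cr (a := F z) (b := f z) (by
      apply v_ext
      · rw [cr_0, h1 1 2, Pi.zero_apply]
        ring
      · rw [cr_1, h1 2 0, Pi.zero_apply]
        ring
      · rw [cr_2, h1 0 1, Pi.zero_apply]
        ring) (hF.ne z)
    refine ⟨c, fun hc0 => h0 z ?_, hc⟩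
    rw [hc, hc0, zero_smul]

/-- **Complements of two plane curves.** -/
theorem result (H : Fin 2 → MvPolynomial (Fin (2 + 1)) ℂ) (d : Fin 2 → ℕ) :
    (Transversal H d → 4 ≤ d 0 + d 1 →
      -- (1) log general type, and the algebraic special set
      ((∀ (K : Type) [Field K] [Algebra ℂ K] (y : Fin (2 + 1) → K), Subvariety H ∅ 2 y →
          LogGT H d ∅ 2 y) ∧
        ∀ (G : MvPolynomial (Fin (2 + 1)) ℂ) (e : ℕ), G.IsHomogeneous e →
          (LogGTOutside H d ∅ G ↔ ∀ q, GmCurve H q → ∀ t, eval (fun i => (q i).eval t) G = 0)) ∧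
      -- (2) Brody curves
      ((∀ f, BrodyCurve H f →
        (∃ β : ℂ, β ≠ 0 ∧ ∀ z, eval (f z) (H 1) ^ d 0 = β * eval (f z) (H 0) ^ d 1) ∨
        ∃ (b : ℂ) (q : Fin (2 + 1) → Polynomial ℂ), ∀ z, ∃ c : ℂ, c ≠ 0 ∧
          f z = c • fun i => (q i).eval (Complex.exp (b * z))) ∧
      ∀ (G : MvPolynomial (Fin (2 + 1)) ℂ) (e : ℕ), G.IsHomogeneous e → LogGTOutside H d ∅ G →
        ∀ f, BrodyCurve H f → (∃ z w i j, f z i * f w j ≠ f z j * f w i) →
          ∀ z, eval (f z) G = 0) ∧
      -- (3) hyperbolicity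
      [LogGTOutside H d ∅ 1, BrodyOutside H ∅ 1, PicardOutside H ∅ 1, DerivativeEstimate H,
        ∀ q, ¬ GmCurve H q].TFAE) ∧
    -- (4) very general pairs
    (VeryGeneral H d → (∀ a, 0 < d a) → 5 ≤ d 0 + d 1 →
      Transversal H d ∧ LogGTOutside H d ∅ 1 ∧ BrodyOutside H ∅ 1 ∧ PicardOutside H ∅ 1 ∧
        DerivativeEstimate H) := by
  have main : Transversal H d → 4 ≤ d 0 + d 1 → BroHyp (H 0) (H 1) →
      GradEst (H 0) (H 1) := by
    intro hT hd hB
    obtain ⟨e1, e2, he1, he2, hS⟩ := hT.snc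
    exact hS.grad (by omega) hB
  have hDE : DerivativeEstimate H ↔ DiscHyp (H 0) (H 1) := by
    constructor
    · rintro ⟨C, hC⟩
      exact ⟨C, fun R f hR hf hX => hC R f hR hf fun z hz => onPair_iff.2 (hX z hz)⟩
    · rintro ⟨C, hC⟩
      exact ⟨C, fun R f hR hf hX => hC R f hR hf fun z hz => onPair_iff.1 (hX z hz)⟩
  have h00 : Transversal H d → ∀ a, eval (0 : Fin 3 → ℂ) (H a) = 0 := by
    intro hT a
    obtain ⟨n, hn⟩ : ∃ n, d a = n + 1 := ⟨d a - 1, by have := hT.pos a; omega⟩
    have h1 := hT.form a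
    rw [hn] at h1
    have := eval_smul' h1 0 0
    rwa [smul_zero, zero_pow (Nat.succ_ne_zero _), zero_mul] at this
  have hGm : Transversal H d → 4 ≤ d 0 + d 1 → ∀ (G : MvPolynomial (Fin (2 + 1)) ℂ) (e : ℕ),
      G.IsHomogeneous e →
        (LogGTOutside H d ∅ G ↔ ∀ q, GmCurve H q → ∀ t, eval (fun i => (q i).eval t) G = 0) := by
    intro hT hd G e hG
    obtain ⟨e1, e2, he1, he2, hS⟩ := hT.snc
    constructor
    · rintro hL q ⟨h1, s, t, i, j, hs, ht, hne⟩ z
      exact gm_in_G hL (h00 hT) (fun t ht => (onPair_iff.1 (h1 t ht)).2) hs ht hne z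
    · intro h1
      refine lgt_of_gm hS he1 he2 (by omega) hG fun q hq => ?_
      by_cases h2 : ∀ s t : ℂ, s ≠ 0 → t ≠ 0 → ∀ i j,
          (q i).eval s * (q j).eval t = (q j).eval s * (q i).eval t
      · exact Or.inr h2
      · left
        push Not at h2
        obtain ⟨s, t, hs, ht, i, j, hne⟩ := h2
        refine h1 q ⟨fun t ht => onPair_iff.2 ⟨fun h3 => hq t ht 0 ?_, hq t ht 0, hq t ht 1⟩,
          s, t, i, j, hs, ht, hne⟩
        rw [h3]
        exact h00 hT 0
  refine ⟨fun hT hd => ⟨⟨?_, hGm hT hd⟩, ⟨fun f hf => ?_, fun G e hG hL f hf hnc z => ?_⟩, ?_⟩,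
    fun hV hpos hd => ?_⟩
  · intro K _ _ y hy
    obtain ⟨e1, e2, he1, he2, hS⟩ := hT.snc
    exact lgt_plane hS he1 he2 (by omega) hy
  · obtain ⟨e1, e2, he1, he2, hS⟩ := hT.snc
    obtain ⟨K, F, g, hF, -, hFf⟩ := hf.lift hS
    rcases hF.alt hS (by omega) with ⟨β, hβ, h1⟩ | ⟨b, q, hb, h1⟩
    · left
      refine ⟨β ^ d 0, pow_ne_zero _ hβ, fun z => ?_⟩
      obtain ⟨c, hc, h2⟩ := hFf z
      rw [h2, eval_smul' hS.h1, eval_smul' hS.h2, hF.v1, h1, ← he1, ← he2]
      ring
    · right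
      refine ⟨b, q, fun z => ?_⟩
      obtain ⟨c, hc, h2⟩ := hFf z
      obtain ⟨c', hc', h3⟩ := h1 z
      exact ⟨c * c', mul_ne_zero hc hc', by rw [h2, h3, smul_smul]⟩
  · obtain ⟨e1, e2, he1, he2, hS⟩ := hT.snc
    obtain ⟨K, F, g, hF, hK, hFf⟩ := hf.lift hS
    obtain ⟨c, hc, h2⟩ := hFf z
    rw [h2, eval_smul' hG, brody_in_G hS he1 he2 (by omega) ⟨e, hG⟩ hL hF hK ?_ z, mul_zero]
    by_contra hcon
    push Not at hcon
    obtain ⟨z1, w1, i, j, hne⟩ := hnc
    apply hne
    obtain ⟨c1, hc1, h3⟩ := hFf z1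
    obtain ⟨c2, hc2, h4⟩ := hFf w1
    have h5 := (Phi_eq_iff (hF.ne z1) (hF.ne w1)).1 ((hcon z1).trans (hcon w1).symm) i j
    rw [h3, h4]
    simp only [Pi.smul_apply, smul_eq_mul]
    linear_combination c1 * c2 * h5
  · obtain ⟨e1, e2, he1, he2, hS⟩ := hT.snc
    tfae_have 1 → 2 := fun hL => brody_iff.2 (entHyp_of_disc (discHyp_of hS.h1 hS.h2
      (main hT hd (bro_of_lgt hS he1 he2 (by omega) hL))))
    tfae_have 2 → 4 := fun h =>
      hDE.2 (discHyp_of hS.h1 hS.h2 (main hT hd (bro_of_ent hS.h1 hS.h2 (brody_iff.1 h))))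
    tfae_have 4 → 2 := fun h => brody_iff.2 (entHyp_of_disc (hDE.1 h))
    tfae_have 2 → 3 := fun h =>
      picard_iff.2 (picHyp_of hS.h1 hS.h2 (main hT hd (bro_of_ent hS.h1 hS.h2 (brody_iff.1 h))))
    tfae_have 3 → 2 := fun h => brody_iff.2 (ent_of_pic (picard_iff.1 h))
    tfae_have 2 → 5 := by
      rintro h q ⟨h1, s, t, i, j, hs, ht, hne⟩
      exact hne (gm_of_ent hS.h1 (brody_iff.1 h) q (fun t ht => (onPair_iff.1 (h1 t ht)).2)
        s t hs ht i j)
    tfae_have 5 → 1 := fun h => (hGm hT hd 1 0 (isHomogeneous_one _ _)).2 fun q hq =>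
      absurd hq (h q)
    tfae_finish
  · have hVG : VG H d := hV
    have hex : ∀ a, ∃ n, d a = n + 1 := fun a => ⟨d a - 1, by have := hpos a; omega⟩
    have hT : Transversal H d := by
      refine ⟨hpos, hV.1, fun a x hx _ => ?_, fun x hx h0 h1 => ?_⟩
      · obtain ⟨n, hn⟩ := hex a
        exact Function.ne_iff.1 (hVG.smooth a hn hx)
      · obtain ⟨n, hn⟩ := hex 0
        obtain ⟨m, hm⟩ := hex 1
        by_contra hcon
        push Not at hcon
        refine hVG.trans (a := 0) (b := 1) (by decide) hn hm hx h0 ?_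
        have k : ∀ i j, grad (H 0) x i * grad (H 1) x j = grad (H 0) x j * grad (H 1) x i := hcon
        apply v_ext
        · rw [cr_0, k 1 2, Pi.zero_apply]
          ring
        · rw [cr_1, k 2 0, Pi.zero_apply]
          ring
        · rw [cr_2, k 0 1, Pi.zero_apply]
          ring
    obtain ⟨e1, e2, he1, he2, hS⟩ := hT.snc
    have hsum : ∑ a, d a = d 0 + d 1 := Fin.sum_univ_two d
    have hL : LogGTOutside H d ∅ 1 :=
      (Pool.Agent.Results.MP_64ff02_ag.GenericPairsSpecialSet.result (n := 2) (by norm_num)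
        hpos ∅ (by
          intro h
          have := Finset.notMem_empty (0 : Fin 2)
          rw [h] at this
          exact this (Finset.mem_univ 0)) (by rw [hsum, Finset.card_empty]; omega) H hV).2.2.2.1
          (by rw [hsum, Finset.card_empty]; omega)
    have hG := main hT (by omega) (bro_of_lgt hS he1 he2 (by omega) hL)
    have hD := discHyp_of hS.h1 hS.h2 hG
    exact ⟨hT, hL, brody_iff.2 (entHyp_of_disc hD), picard_iff.2 (picHyp_of hS.h1 hS.h2 hG),
      hDE.2 hD⟩

end Pool.Agent.Results.MP_64ff02_ag.TwoPlaneCurves
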