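import Pool.Agent.H910.Dsc.Main

set_option autoImplicit false

/-!
# The generalized Green-Griffiths-Lang conjecture for quasi-projective varieties over the space of
# binary forms, ramified over the discriminant hypersurface and osculating hyperplanes

`P^(n + 1)` is the space of the binary forms of degree `n + 1` (the polynomials
`∑ l, y l * T ^ l` of degree at most `n + 1`), and the hyperplane `H(a_i) = 0` is the space of the
forms which vanish at the number `a i`.
-/

namespace Pool.Agent.Results.MP_64ff02_ag.DiscriminantForms

open MvPolynomial Pool.Agent.H910.Dsc Pool.Agent.TH152.HY Pool.Agent.W602.Cov.R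
  Pool.Agent.W602.GT Pool.Agent.W602.Cov Pool.Agent.W602.Cov.Cover
open Pool.Agent.Y191 (SemiAbelianOff lf)
open Pool.Agent.Y216 (bdisc)
open Pool.Agent.Y190.SC (FiniteOver)

/-- Let `X - D` be a quasi-projective variety over `ℂ` of dimension `t ≥ 1` (`X` and `D` closed in
`P^N × P^(n + 1)`, `K` the function field of `X`) whose second projection to `P^(n + 1)` is
generically finite onto its image, which is contained neither in the discriminant hypersurface nor
in a hyperplane `H(a_i) = 0`, where `a 0, ..., a (q - 1)` are distinct numbers. Assume that the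
projection is ramified over these hypersurfaces in the sense of `RamifiedDisc`, with weights such
that `(n + 1) * (∑ c i + 2 * n * cD) + 2 * M < ∑ μ i`. Then there is a bihomogeneous polynomial `G`
of bidegree `(0, E)`, not vanishing on `X - D`, such that

* `X - D` is of log general type,
* holomorphic maps from the punctured disc to `X - D`, with image not in `G = 0`, extend,
* all entire curves of `X - D` lie in `G = 0`,
* all closed subvarieties of `X - D` of positive dimension not in `G = 0` are of log general type,
* rational maps from semi-abelian varieties to `X - D` defined in codimension one lie in `G = 0`,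

and if `X` is finite over `P^(n + 1)`, then `G` is the product of the linear forms of the
hyperplanes and of the discriminant. -/
theorem result {N n q : ℕ} (a : Fin q → ℂ) (ha : Function.Injective a) (M : ℕ) (μ c : Fin q → ℕ)
    (cD : ℕ) (hμ : ∀ i, μ i ≤ M)
    (hbound : (n + 1) * (∑ i, c i + 2 * n * cD) + 2 * M < ∑ i, μ i) (X D : BiSet N (n + 1))
    (hR : RamifiedDisc X D a M μ c cD)
    (K : Type) [Field K] [Algebra ℂ K] (x : Fin (N + 1) → K) (y : Fin (n + 2) → K) (t : ℕ)
    (hK : X.FunctionField K x y) (hD : ¬ D.Mem x y)
    (halg : Algebra.IsAlgebraic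
      (IntermediateField.adjoin ℂ {f : K | ∃ i j, y j ≠ 0 ∧ f = y i / y j}) K)
    (ht : Algebra.trdeg ℂ K = t) (ht1 : 1 ≤ t)
    (h0 : ∀ i, lf (fun l : Fin (n + 2) => a i ^ (l : ℕ)) y ≠ 0) (hd0 : bdisc y ≠ 0) :
    ∃ (G : BiPoly N (n + 1)) (E : ℕ), BiHom G 0 E ∧
      (∃ u v, QMem X D u v ∧ eval (Sum.elim u v) G ≠ 0) ∧
      LogGeneralType ℂ K t (CentreIn D x y) ∧
      PicardOff X D G ∧ BrodyOff X D G ∧ LangOff X D G ∧ SemiAbelianOff X D G ∧
      (FiniteOver X → G = hypD N n a) := by
  obtain ⟨G, E, h1, h2, h3, h4, h5, h6, h7, h8⟩ :=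
    final_dsc ha hμ hbound hR hK hD halg ht ht1 h0 hd0
  exact ⟨G, E, h1, h2, h3, h4, h5, h7, h6, h8⟩

end Pool.Agent.Results.MP_64ff02_ag.DiscriminantForms
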