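import Pool.Agent.H918.S.SetThm2

/-!
The big Picard theorem and subvarieties for projective varieties which are, up to a finite unramified
covering, fibred over an elliptic curve.
-/

set_option autoImplicit false

open Filter Topology FF Metric LinearAlgebra.Projectivization Pool.Agent.W602.GT
  Pool.Agent.N154.GG Pool.Agent.H918.SS Pool.Agent.H918.SP

/-- Let `X = {F = 0}` be an irreducible projective variety of dimension `d ≥ 2`, which may be singular,
and let `X' = {F' = 0}` be a finite unramified covering of `X` with a holomorphic map `α` to an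
elliptic curve `E = ℂ / L`, for example `X' = X`. Suppose that there is a finite set `B` of points of
`E` such that `X'` has a semistable reduction which is unramified outside of the fibres over `B`
(`HasReduction`). By the theorems of Deligne and Mumford and of Arakelov, all smooth projective
surfaces of general type with a holomorphic map with connected fibres to an elliptic curve satisfy
this.

Then there is a finite set `S` of holomorphic maps `g` from the complex plane to `X`, periodic with
respect to a lattice, such that every holomorphic map `f` from the punctured disc to `X` which does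
not extend to a holomorphic map from the disc to `X` has its values in the image of the fibre over a
point of `B`, or is `f (exp z) = g (φ z)` with `g` in `S` and a holomorphic function `φ` on the left
half plane.

Moreover, let `H` be a form, not identically zero on `X`, which is zero at the images of the points of
the fibres over `B`. Then there is a proper Zariski closed subset `{R = 0}` of `X` which contains all
these punctured discs, all nonconstant entire curves, all curves in `X` which are not of general type
and, if `d = 2` and `X` is of general type, all subvarieties of positive dimension which are not of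
general type: `X` is pseudo Picard hyperbolic, pseudo Brody hyperbolic and strongly of general type. -/
theorem Pool.Agent.Results.MP_64ff02_ag.FibredPicard.result {m n : ℕ} {ι ι' : Type}
    (F : ι → MvPolynomial (Fin (n + 1)) ℂ) (d : ℕ) (K : Type) [Field K] [Algebra ℂ K]
    (y : Fin (n + 1) → K) (hX : ProjVariety F d y) (hd : 2 ≤ d)
    (F' : ι' → MvPolynomial (Fin (m + 1)) ℂ) (hF' : ∀ i, IsForm (F' i))
    (Q : Fin (n + 1) → MvPolynomial (Fin (m + 1)) ℂ) (hQ : EtaleCovering F F' Q) (L : PeriodPair)
    (α : (Fin (m + 1) → ℂ) → ℂ ⧸ L.lattice) (hα : HolToTorus (Cone F') L α)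
    (B : Set (ℂ ⧸ L.lattice)) (hB : B.Finite) (hred : HasReduction F' α B) :
    ∃ (S : Set (ℂ → ℙ ℂ (Fin (n + 1) → ℂ))) (k : ℕ), S.Finite ∧ 0 < k ∧
      (∀ g ∈ S, HolIn F g ∧ ∀ l ∈ L.lattice, ∀ z, g (z + k * l) = g z) ∧
      (∀ f, PunctIn F f → Extends F f ∨ (∃ b ∈ B, ∀ z ∈ PDisc, OverPoint F' α Q b (f z).rep) ∨
        ∃ g ∈ S, ∃ φ : ℂ → ℂ, DifferentiableOn ℂ φ {z | z.re < 0} ∧
          ∀ z : ℂ, z.re < 0 → f (Complex.exp z) = g (φ z)) ∧
      ∀ H : MvPolynomial (Fin (n + 1)) ℂ, IsForm H → val y H ≠ 0 →
        (∀ u ∈ Cone F, (∃ b ∈ B, OverPoint F' α Q b u) → val u H = 0) →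
        ∃ R : MvPolynomial (Fin (n + 1)) ℂ, IsForm R ∧ val y R ≠ 0 ∧
          (∀ f, PunctIn F f → Extends F f ∨ ∀ z ∈ PDisc, val (f z).rep R = 0) ∧
          (∀ f, HolIn F f → (∀ z w, f z = f w) ∨ ∀ z, val (f z).rep R = 0) ∧
          (∀ (K' : Type) [Field K'] [Algebra ℂ K'] (y' : Fin (n + 1) → K'), SubVar F K' 1 y' →
            ¬ GeneralType ℂ K' 1 → val y' R = 0) ∧
          (d = 2 → GeneralType ℂ K d → ∀ (K' : Type) [Field K'] [Algebra ℂ K'] (w : ℕ)
            (y' : Fin (n + 1) → K'), 1 ≤ w → SubVar F K' w y' → ¬ GeneralType ℂ K' w →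
              val y' R = 0) := by
  obtain ⟨S, k, h1, h2, h3, h4, -, -, -, G, -, -, -, h5⟩ := allV hX hd hF' hQ hα hB hred
  refine ⟨S, k, h1, h2, fun g hg => ⟨(h3 g hg).1, (h3 g hg).2.1⟩, h4, fun H hH hy hHB => ?_⟩
  obtain ⟨g1, g2, g3, g4, -, g5⟩ := h5 H hH hy hHB
  refine ⟨G * H, g1, g2, g3, g4, g5, ?_⟩
  rintro rfl hK
  exact strong2 hX hK g5
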