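import Mathlib
import Pool.Agent.H917.M.R3

/-!
MP_64ff02_ag, Q1: the equivalence of the four properties for quasi-projective varieties `X` with a
compactification such that some symmetric power of the logarithmic cotangent bundle is generated by
global sections, and for all closed subvarieties of `X`.

The boundary `D` of the projective variety `X̄` with the ideal `p` is given by boundary coordinates:
in the chart where the `j`-th coordinate is not zero, `D` is the union of the hyperplane sections
given by the coordinates in `B j` (`BdC p B`), and `X = X̄ \ D` is the set of the points `x` with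
`OffB B x`. Every pair (smooth projective variety, divisor with simple normal crossings) has such
an embedding in a projective space, in which each component of `D` is, in each chart, the divisor
of one of the coordinates: take line bundles `A` and `A(-D_i)`, all very ample, with generating
sections `a_j` (among them all `s_i t^(i)_c`, where `s_i` is the section of `O(D_i)` with the
divisor `D_i`) and `t^(i)_c`, and the coordinates `a_j * ∏_i t^(i)_(c_i)`.
-/

set_option autoImplicit false

namespace Pool.Agent.Results.MP_64ff02_ag.GenPowersLogFour

open MvPolynomial Metric Pool.Agent.H917 Pool.Agent.H917.Mg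
open Pool.Agent.W602.GT (LogGeneralType)

/-- Let `p` be the homogeneous ideal of a projective variety `X̄`, with the boundary `D` given by
the boundary coordinates `B`, such that the `m`-th symmetric power of the logarithmic cotangent
sheaf of `(X̄, D)` is generated by global sections, for some `m ≥ 1`. Let `V̄` be an irreducible
closed subvariety of `X̄` which is not contained in `D` (such as `X̄` itself, if it is irreducible),
with the homogeneous prime ideal `q`, the function field `K` of transcendence degree `w` and the
generic point `y`, and let `V = V̄ \ D`. The following are equivalent: (i) `V` is of log general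
type; (ii) `V` is pseudo Picard hyperbolic: there is a form `G` which does not vanish on `V` such
that every holomorphic map from the punctured disc to `V` whose image is not contained in `G = 0`
extends to the disc; (iii) `V` is pseudo Brody hyperbolic: there is a form `G` which does not vanish
on `V` such that `G = 0` contains the images of all nonconstant holomorphic maps from the plane to
`V`; (iv) `V` is strongly of log general type: there is a form `G` which does not vanish on `V` such
that all irreducible closed subvarieties of `V` of positive dimension which are not contained in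
`G = 0` are of log general type. Moreover the smallest closed subsets with the properties in (ii),
(iii) and (iv) are equal: `Sp_p (V) = Sp_h (V) = Sp_alg (V)`. -/
theorem result {n : ℕ} (p : Ideal (MvPolynomial (Fin (n + 1)) ℂ))
    (B : Fin (n + 1) → Finset (Fin (n + 1))) (hB : BdC p B) {m : ℕ} (hm : 1 ≤ m)
    (hg : BGenerated p B m)
    (q : Ideal (MvPolynomial (Fin (n + 1)) ℂ)) (hqp : q.IsPrime)
    (hq : ∀ H ∈ q, ∀ d, homogeneousComponent d H ∈ q) (hpq : p ≤ q) (K : Type) [Field K]
    [Algebra ℂ K] (w : ℕ) (y : Fin (n + 1) → K) (hy : SubVarB q B K w y)
    (hf : ∀ H : MvPolynomial (Fin (n + 1)) ℂ, (∃ d, H.IsHomogeneous d) → aeval y H = 0 → H ∈ q) :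
    List.TFAE [LogGeneralType ℂ K w (BdP B y),
      ∃ G : MvPolynomial (Fin (n + 1)) ℂ, (∃ d, G.IsHomogeneous d) ∧ G ∉ q ∧
        ∀ f, PuncCurve q f → (∀ z ∈ ball (0 : ℂ) 1 \ {0}, OffB B (f z)) →
          (∃ z ∈ ball (0 : ℂ) 1 \ {0}, eval (f z) G ≠ 0) → Extends f,
      ∃ G : MvPolynomial (Fin (n + 1)) ℂ, (∃ d, G.IsHomogeneous d) ∧ G ∉ q ∧
        ∀ f, EntCurve q f → (∀ z, OffB B (f z)) → ∀ z, eval (f z) G = 0,
      ∃ G : MvPolynomial (Fin (n + 1)) ℂ, (∃ d, G.IsHomogeneous d) ∧ G ∉ q ∧
        ∀ (F : Type) [Field F] [Algebra ℂ F] (d : ℕ) (x : Fin (n + 1) → F), 1 ≤ d →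
          SubVarB q B F d x → aeval x G ≠ 0 → LogGeneralType ℂ F d (BdP B x)] ∧
    SpPB q B = SpAlgB q B ∧ SpHB q B = SpAlgB q B := by
  have hB' := hB.res hpq
  have hg' := hg.res hpq
  obtain ⟨h1, h2, _⟩ := bsp_eq hq hB' hm hg'
  exact ⟨tfae4 hqp hq hB' hm hg' hy hf, h1, h2⟩

end Pool.Agent.Results.MP_64ff02_ag.GenPowersLogFour
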